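import Pool.Agent.R926.SC.SixCor

/-!
# Unions of three cycles, two of them 2-factors

A finite graph (parallel edges allowed) has the vertex set `V` and the edge set `E`; the
ends of the edge `e` are `s e` and `t e`.  Let `C_1, ..., C_m` be sets of edges of a bridgeless graph `G`, such that each `C_i` has at most four
edges outside the union of the earlier ones and no bridge modulo this union (circuits, or open or
closed ears), or contains two disjoint sets each of which connects all that `C_i` connects modulo
this union.  Let `F` be their union, and assume that at most sixteen components of the graph `(V, F)`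
have an odd number of boundary edges in `G`.  Then `G` has a map to the Petersen graph for which
preimages of cycles are cycles (`R926/SC/PetMix.lean`), and
if `G` is cubic, then it is the union of three of its cycles, two of which are 2-factors.
For the proof of the statement on maps to the Petersen graph see MP_03045a_co/SixteenOddPieces.
-/

set_option autoImplicit false

open Finset

namespace Pool.Agent.Results.MP_c95763_co.SixteenOddPieces

/-- The edges with exactly one end in `Y`. -/
def boundary {V E : Type} [DecidableEq V] [Fintype E] (s t : E → V) (Y : Finset V) : Finset E :=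
  Finset.univ.filter (fun e => ¬ (s e ∈ Y ↔ t e ∈ Y))

/-- The component of `x` in the graph with the vertices `V` and the edges `F`. -/
noncomputable def component {V E : Type} [Fintype V] (s t : E → V) (F : Finset E) (x : V) :
    Finset V :=
  open Classical in Finset.univ.filter (fun y =>
    Relation.EqvGen (fun a b => ∃ e ∈ F, s e = a ∧ t e = b) x y)

/-- The union of the sets `C j` with `j < i`. -/
def earlier {E : Type} [DecidableEq E] {m : ℕ} (C : Fin m → Finset E) (i : Fin m) : Finset E :=
  (Finset.univ.filter (fun j => j < i)).biUnion C

/-- `H` can be added to the chain after `F`: either (short) `H` has at most four edges outside `F`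
and no bridge modulo `F`: no set `Y` of vertices without boundary edges in `F` has exactly one
boundary edge in `H`; or (doubly connected) `H` contains two disjoint sets each of which connects,
modulo `F`, whatever `H` connects: every set `Y` of vertices without boundary edges in `F` and with
a boundary edge in `H` has boundary edges in both sets. -/
def Step {V E : Type} [DecidableEq V] [Fintype E] [DecidableEq E] (s t : E → V)
    (F H : Finset E) : Prop :=
  ((H \ F).card ≤ 4 ∧ ∀ Y : Finset V, Disjoint (boundary s t Y) F →
    (boundary s t Y ∩ H).card ≠ 1) ∨
  ∃ T₁ T₂ : Finset E, T₁ ⊆ H ∧ T₂ ⊆ H ∧ Disjoint T₁ T₂ ∧ ∀ Y : Finset V,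
    Disjoint (boundary s t Y) F → ¬ Disjoint (boundary s t Y) H →
      ¬ Disjoint (boundary s t Y) T₁ ∧ ¬ Disjoint (boundary s t Y) T₂

/-- every vertex has degree three, where a loop counts twice -/
def IsCubic {V E : Type} [DecidableEq V] [Fintype E] (s t : E → V) : Prop :=
  ∀ v, ∑ e, ((if s e = v then 1 else 0) + (if t e = v then 1 else 0)) = 3

/-- the set of edges `C` is a cycle: all degrees are even, where a loop counts twice -/
def IsCycle {V E : Type} [DecidableEq V] (s t : E → V) (C : Finset E) : Prop :=
  ∀ v, Even (∑ e ∈ C, ((if s e = v then 1 else 0) + (if t e = v then 1 else 0)))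

/-- the set of edges `C` is a 2-factor: every vertex has degree two in it -/
def IsTwoFactor {V E : Type} [DecidableEq V] (s t : E → V) (C : Finset E) : Prop :=
  ∀ v, ∑ e ∈ C, ((if s e = v then 1 else 0) + (if t e = v then 1 else 0)) = 2

/-- Let `G` be a finite cubic graph, given by the two ends `s e` and `t e` of each edge `e`, such that
no set of vertices is left by exactly one edge, and `C 0, ..., C (m - 1)` sets of edges such that each
`C i` can be added after the union of the earlier ones (`Step`: at most four new edges and no bridge,
or two disjoint connectors).  If at most sixteen components of the graph with the vertices of `G`,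
whose edges are the elements of the sets `C i`, have an odd number of boundary edges, then `G` is the union of three of its
cycles, two of which are 2-factors. -/
theorem result (V E : Type) [Fintype V] [DecidableEq V] [Fintype E] [DecidableEq E] (s t : E → V)
    (hc : IsCubic s t) (hb : ∀ Y : Finset V, (boundary s t Y).card ≠ 1) (m : ℕ) (C : Fin m → Finset E)
    (h1 : ∀ i, Step s t (earlier C i) (C i))
    (h2 : ((Finset.univ.image (component s t (Finset.univ.biUnion C))).filter
      (fun X => Odd (boundary s t X).card)).card ≤ 16) :
    ∃ C₁ C₂ C₃ : Finset E, IsTwoFactor s t C₁ ∧ IsTwoFactor s t C₂ ∧ IsCycle s t C₃ ∧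
      C₁ ∪ C₂ ∪ C₃ = univ := by
  obtain ⟨C, hC, h4⟩ := Pool.Agent.R926.SC.Cor.six_chain s t hb m C (Pool.Agent.R926.SC.st_of s t m C h1) h2
  refine ⟨C 0, C 1, C 2, fun v => Pool.Agent.R926.SC.Cor.factor hC h4 v (hc v) 0,
    fun v => Pool.Agent.R926.SC.Cor.factor hC h4 v (hc v) 1, hC 2, ?_⟩
  ext e
  simp only [mem_union, mem_univ, iff_true]
  rcases Pool.Agent.R926.SC.Cor.three_cover h4 (i := 0) (j := 1) (k := 2) (by decide) (by decide)
    (by decide) e with h | h | h
  · exact Or.inl (Or.inl h)
  · exact Or.inl (Or.inr h)
  · exact Or.inr h

end Pool.Agent.Results.MP_c95763_co.SixteenOddPieces
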